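import Pool.Agent.Helper65.EV.St

/-!
# Project EV, module GR: growth of a function along the followed position
-/

set_option autoImplicit false

open MeasureTheory ProbabilityTheory Set Filter
open scoped ENNReal Topology
open Pool.Agent.Helper84.Eve
open Pool.Agent.Helper65.EV

namespace Pool.Agent.Helper1.EV

theorem hGR : Pool.Agent.Helper65.EV.hGR := by
  intro w n hw G c hG m
  induction m with
  | zero =>
    intro a
    simp [wsum, posl]
  | succ m ih =>
    intro a
    have h1 : wsum w n (m + 1) (fun l => G (posl l a)) =
        ∑ κ ∈ (Finset.range n).powerset, w κ * wsum w n m (fun l => G (posl l (pos κ a))) := rfl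
    rw [h1]
    calc ∑ κ ∈ (Finset.range n).powerset, w κ * wsum w n m (fun l => G (posl l (pos κ a)))
        ≤ ∑ κ ∈ (Finset.range n).powerset, w κ * (G (pos κ a) + m * c) := by
          gcongr with κ hκ
          exact ih (pos κ a)
      _ = ∑ κ ∈ (Finset.range n).powerset, w κ * G (pos κ a) +
          (∑ κ ∈ (Finset.range n).powerset, w κ) * (m * c) := by
          rw [Finset.sum_mul, ← Finset.sum_add_distrib]
          refine Finset.sum_congr rfl fun κ _ => ?_
          rw [mul_add]
      _ ≤ (G a + c) + 1 * (m * c) := by
          gcongr
          exact hG a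
      _ = G a + ((m + 1 : ℕ) : ℝ≥0∞) * c := by
          push_cast
          ring

end Pool.Agent.Helper1.EV
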